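import Pool.Agent.U724.NT.CLaw

/-!
# MP_a09a03_nt: the exact sequence of part (b) of Beilinson's conjecture on all powers of a variety

Let `X` be a smooth projective variety over `ℚ` which satisfies the sign conjecture (for example a
product of curves, surfaces, abelian varieties and complete intersections), `b` the sum of its
Betti numbers. For all `n ≥ 0` and all weights `j` consider the complex

`(*)  0 ⟶ H_ℳ^(2 j - 1)(X ^ n, ℚ(j))_ℤ ⊗ ℝ ⟶ H_𝒟^(2 j - 1)(X ^ n /ℝ, ℝ(j)) ⟶ CH^(dim X ^ n + 1 - j)_hom(X ^ n)_ℝ ^ * ⟶ 0`

given by the regulator `r (n)` and by the product with cycle classes. For the weight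
`j = d = dim X ^ n + 1` this is the sequence

`0 ⟶ M^(2 d - 1) ⟶ D^(2 d - 1) ⟶ CH^0(X ^ n)_ℝ ^ * ⟶ 0`

of part (b) of the question for `X ^ n`; the exactness in the other weights is Beilinson's conjecture
on the integral `K_1`. Let `ker (n)` and `coker (n)` be the dimensions of the kernel and of the
cokernel of `r (n)`, for all weights `j` together, and `ρ (n)` the rank of the group of algebraic
cycles of all codimensions on `X ^ n` modulo numerical equivalence.

Theorem. (1) `ker (n) / ρ (n)` and `coker (n) / ρ (n)` converge to elements `A` and `B` of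
`{0, 1, 2, …} ∪ {∞}`.

(2) **The sequences (*) are exact and numerical equivalence is homological equivalence for all
powers of `X` if and only if `A + B = 1`, and also if and only if `ker (n) + coker (n) ≤ c ρ (n)` for
infinitely many `n` and a constant `c < 2`.**

(3) If only `coker (n) ≤ c ρ (n)` for infinitely many `n` and some constant `c`, however large (that
is, if `B` is finite), then numerical and homological equivalence coincide on all powers of `X`.

(4) A single inequality suffices: if `ker (n) + coker (n) < (3 / 2) ρ (n)` for ONE number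
`n ≥ 128 (m + 1) ^ 2 b ^ (2 m + 6)` then (*) is exact and numerical equivalence is homological
equivalence for `X ^ m`.

The setting. `C` is the category of the smooth projective varieties over `ℚ` with the groups
`CH^*(X × Y) ⊗ ℝ` (all codimensions) as morphisms, `T = h(X)`, `tp T n = h(X ^ n)`, `Λ = ℝ`, `R` is
the singular cohomology with complex coefficients. `M` is the integral part of `K_1 ⊗ ℝ`, `D` is the
Deligne cohomology (all weights), `r` the regulator, and `P (x, z)` is the image of the product of
`x` with the class of the cycle `z` in `H_𝒟^1(Spec ℝ, ℝ(1)) = ℝ`. It satisfies the projection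
formula; `z` is orthogonal to all `x` if and only if it is homologically trivial (Poincaré duality),
and `P (r (y), z) = 0` for integral `y` since `ℤ^* ⊗ ℚ = 0` (product formula). The theorem is proved
for all categories, functors, natural transformations and pairings of this kind.

Idea of the proof. The dimension of the cokernel is `ρ (n)` plus the dimensions of the values of two
additive functors: the homology of the complex `M ⟶ D ⟶ (cycles) ^ *`, and the dual of the space of the
numerically trivial cycles modulo homological equivalence. To these functors and to the kernel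
of `r` the law for additive functors (files `N64/AF`) applies. For the second functor a finite limit
is zero: otherwise compositions of numerically trivial correspondences act as zero on it, and this
is applied to the exterior powers of a cycle `z`.
-/

set_option autoImplicit false

open CategoryTheory MonoidalCategory Module Filter
open Pool.Agent.Y112.SR Pool.Agent.Y112.KD Pool.Agent.N64.AF Pool.Agent.U724.NT
open scoped ENNReal

namespace Pool.Agent.Results.MP_a09a03_nt.ExactSequenceLaw

universe v u w t x

/-- The law for the sequences `0 ⟶ M ⟶ D ⟶ (cycles) ^ * ⟶ 0` on the powers of `X`. -/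
theorem result {C : Type u} [Category.{v} C] [Preadditive C] [MonoidalCategory C]
    [MonoidalPreadditive C] [SymmetricCategory C] [RightRigidCategory C]
    {Λ : Type t} [Field Λ] [CharZero Λ] [Linear Λ C] [MonoidalLinear Λ C]
    {K : Type w} [Field K] [IsAlgClosed K] [Algebra Λ K] (R : SuperRealisation C K)
    (T : C) [ExactPairing T T] (h : IsPow Λ R T) (M D : C ⥤ ModuleCat.{x} Λ)
    [M.Additive] [M.Linear Λ] [D.Additive] [D.Linear Λ] (r : M ⟶ D)
    (hfin : ∀ n, Module.Finite Λ (D.obj (tp T n)))
    (P : ∀ Z : C, D.obj Z →ₗ[Λ] (Z ⟶ 𝟙_ C) →ₗ[Λ] Λ) (hP : IsCyclePairing R T P)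
    (hr : ∀ (Z : C) (x : M.obj Z) (z : Z ⟶ 𝟙_ C), P Z ((r.app Z).hom x) z = 0) :
    (∃ A B : ℕ∞, HasLaw Λ T (kerDim T r) A ∧ HasLaw Λ T (cokerDim T r) B ∧
      (B ≠ ⊤ → ∀ n, HomEqNumAt R T n) ∧
      (A + B = 1 ↔ ∀ n, ExactAt R T r P n ∧ HomEqNumAt R T n)) ∧
    ((∃ c : ℝ≥0∞, c < 2 ∧ ∃ᶠ n in atTop,
        ((kerDim T r n + cokerDim T r n : ℕ∞) : ℝ≥0∞) ≤ c * numRank Λ (tp T n)) ↔
      ∀ n, ExactAt R T r P n ∧ HomEqNumAt R T n) ∧
    ∀ m n : ℕ, 128 * (m + 1) ^ 2 * bt R T ^ (2 * m + 6) ≤ n →
      2 * (kerDim T r n + cokerDim T r n) < 3 * numRank Λ (tp T n) →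
      ExactAt R T r P m ∧ HomEqNumAt R T m :=
  cplx_law h M D r hfin P hP hr

end Pool.Agent.Results.MP_a09a03_nt.ExactSequenceLaw
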